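import Mathlib

open scoped MatrixGroups Pointwise

namespace Pool.Agent.Results.MP_b8636a_al.LengthFive

/-- The root unipotent `x_α(t)` of `SL₂(R)`, type `A₁`. -/
def xpos {R : Type} [CommRing R] (t : R) : SL(2, R) := ⟨!![1, t; 0, 1], by simp⟩

/-- The opposite root unipotent `x_{-α}(t)` of `SL₂(R)`, type `A₁`. -/
def xneg {R : Type} [CommRing R] (t : R) : SL(2, R) := ⟨!![1, 0; t, 1], by simp⟩

/-- The subgroup `U` generated by the `x_α(t)`. -/
def U (R : Type) [CommRing R] : Subgroup SL(2, R) := Subgroup.closure (Set.range xpos)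

/-- The subgroup `U⁻` generated by the `x_{-α}(t)`. -/
def Um (R : Type) [CommRing R] : Subgroup SL(2, R) := Subgroup.closure (Set.range xneg)

variable {R : Type} [CommRing R]

lemma coe_xpos (t : R) : (xpos t : Matrix (Fin 2) (Fin 2) R) = !![1, t; 0, 1] := rfl

lemma coe_xneg (t : R) : (xneg t : Matrix (Fin 2) (Fin 2) R) = !![1, 0; t, 1] := rfl

lemma xpos_add (s t : R) : xpos s * xpos t = xpos (s + t) := by
  apply Subtype.ext
  rw [Matrix.SpecialLinearGroup.coe_mul, coe_xpos, coe_xpos, coe_xpos, Matrix.mul_fin_two]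
  simp [add_comm]

lemma xneg_add (s t : R) : xneg s * xneg t = xneg (s + t) := by
  apply Subtype.ext
  rw [Matrix.SpecialLinearGroup.coe_mul, coe_xneg, coe_xneg, coe_xneg, Matrix.mul_fin_two]
  simp

lemma xpos_zero : (xpos 0 : SL(2, R)) = 1 := by
  ext i j
  fin_cases i <;> fin_cases j <;> simp [xpos]

lemma xneg_zero : (xneg 0 : SL(2, R)) = 1 := by
  ext i j
  fin_cases i <;> fin_cases j <;> simp [xneg]

lemma mem_U (g : SL(2, R)) : g ∈ U R ↔ ∃ t, g = xpos t := by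
  constructor
  · intro h
    induction h using Subgroup.closure_induction with
    | mem x hx => obtain ⟨t, rfl⟩ := hx; exact ⟨t, rfl⟩
    | one => exact ⟨0, xpos_zero.symm⟩
    | mul x y _ _ hx hy =>
      obtain ⟨s, rfl⟩ := hx
      obtain ⟨t, rfl⟩ := hy
      exact ⟨s + t, xpos_add s t⟩
    | inv x _ hx =>
      obtain ⟨s, rfl⟩ := hx
      exact ⟨-s, inv_eq_of_mul_eq_one_right (by rw [xpos_add, add_neg_cancel, xpos_zero])⟩
  · rintro ⟨t, rfl⟩
    exact Subgroup.subset_closure ⟨t, rfl⟩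

lemma mem_Um (g : SL(2, R)) : g ∈ Um R ↔ ∃ t, g = xneg t := by
  constructor
  · intro h
    induction h using Subgroup.closure_induction with
    | mem x hx => obtain ⟨t, rfl⟩ := hx; exact ⟨t, rfl⟩
    | one => exact ⟨0, xneg_zero.symm⟩
    | mul x y _ _ hx hy =>
      obtain ⟨s, rfl⟩ := hx
      obtain ⟨t, rfl⟩ := hy
      exact ⟨s + t, xneg_add s t⟩
    | inv x _ hx =>
      obtain ⟨s, rfl⟩ := hx
      exact ⟨-s, inv_eq_of_mul_eq_one_right (by rw [xneg_add, add_neg_cancel, xneg_zero])⟩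
  · rintro ⟨t, rfl⟩
    exact Subgroup.subset_closure ⟨t, rfl⟩

/-- The arithmetic core. -/
lemma core (q r s p t : ℤ) (h1 : q + s + q * r * s = 21) (h2 : r * s = -14 - 21 * p)
    (h3 : q * r = -14 - 21 * t) : False := by
  have h7 : (7 : ℤ) ∣ r * s := ⟨-2 - 3 * p, by rw [h2]; ring⟩
  have h7' : (7 : ℤ) ∣ q * r := ⟨-2 - 3 * t, by rw [h3]; ring⟩
  have hp7 : Prime (7 : ℤ) := by norm_num
  have hr0 : r ≠ 0 := by
    rintro rfl
    simp at h2
    omega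
  have hs0 : s ≠ 0 := by
    rintro rfl
    simp at h2
    omega
  have hq0 : q ≠ 0 := by
    rintro rfl
    simp at h3
    omega
  have hQ : 1 ≤ |q| := Int.one_le_abs hq0
  have hS : 1 ≤ |s| := Int.one_le_abs hs0
  have hR : 1 ≤ |r| := Int.one_le_abs hr0
  have hineq : |q| * |r| * |s| ≤ 21 + |q| + |s| := by
    rw [← abs_mul, ← abs_mul]
    have : q * r * s = 21 - q - s := by linarith
    rw [this]
    calc |21 - q - s| ≤ |21 - q| + |s| := abs_sub _ _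
      _ ≤ |21| + |q| + |s| := by gcongr; exact abs_sub _ _
      _ = 21 + |q| + |s| := by norm_num
  by_cases hr7 : (7 : ℤ) ∣ r
  · obtain ⟨r', rfl⟩ := hr7
    have hr'0 : r' ≠ 0 := by rintro rfl; simp at hr0
    have hR' : 1 ≤ |r'| := Int.one_le_abs hr'0
    rw [abs_mul, show |(7 : ℤ)| = 7 from rfl] at hineq
    have e1 : 7 * (|q| * |s|) ≤ 21 + |q| + |s| := by
      have : 7 * (|q| * |s|) * 1 ≤ 7 * (|q| * |s|) * |r'| := by
        apply mul_le_mul_of_nonneg_left hR'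
        positivity
      nlinarith [this]
    have hSb : |s| ≤ 3 := by nlinarith
    have hQb : |q| ≤ 3 := by nlinarith
    have hRb : |r'| ≤ 3 := by
      have : 7 * |r'| * 1 ≤ 7 * |r'| * (|q| * |s|) := by
        apply mul_le_mul_of_nonneg_left _ (by positivity)
        nlinarith
      nlinarith [this]
    rw [abs_le] at hSb hQb hRb
    obtain ⟨a1, a2⟩ := hSb
    obtain ⟨b1, b2⟩ := hQb
    obtain ⟨c1, c2⟩ := hRb
    interval_cases s <;> interval_cases q <;> interval_cases r' <;> omega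
  · have d1 : (7 : ℤ) ∣ s := (hp7.dvd_or_dvd h7).resolve_left hr7
    have d2 : (7 : ℤ) ∣ q := (hp7.dvd_or_dvd h7').resolve_right hr7
    have e1 : 7 ≤ |s| := Int.le_of_dvd (by positivity) ((dvd_abs 7 s).mpr d1)
    have e2 : 7 ≤ |q| := Int.le_of_dvd (by positivity) ((dvd_abs 7 q).mpr d2)
    have e3 : |q| * |s| * 1 ≤ |q| * |s| * |r| :=
      mul_le_mul_of_nonneg_left hR (by positivity)
    nlinarith

/-- The matrix `[[-13, 8], [21, -13]]`. -/
def A : SL(2, ℤ) := ⟨!![-13, 8; 21, -13], by simp⟩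

/-- The matrix `[[-13, 21], [8, -13]]`. -/
def B : SL(2, ℤ) := ⟨!![-13, 21; 8, -13], by simp⟩

lemma coe_A : (A : Matrix (Fin 2) (Fin 2) ℤ) = !![-13, 8; 21, -13] := rfl

lemma coe_B : (B : Matrix (Fin 2) (Fin 2) ℤ) = !![-13, 21; 8, -13] := rfl

lemma A_eq : A = xneg (-2) * xpos 2 * xneg 1 * xpos 2 * xneg (-2) := by
  apply Subtype.ext
  simp only [Matrix.SpecialLinearGroup.coe_mul, coe_xpos, coe_xneg, coe_A, Matrix.mul_fin_two]
  norm_num

lemma B_eq : B = xpos (-2) * xneg 2 * xpos 1 * xneg 2 * xpos (-2) := by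
  apply Subtype.ext
  simp only [Matrix.SpecialLinearGroup.coe_mul, coe_xpos, coe_xneg, coe_B, Matrix.mul_fin_two]
  norm_num

lemma A_ne (p q r s t : ℤ) : A ≠ xpos p * xneg q * xpos r * xneg s * xpos t := by
  intro h
  have e00 := congrArg (fun M : SL(2, ℤ) => (M : Matrix (Fin 2) (Fin 2) ℤ) 0 0) h
  have e10 := congrArg (fun M : SL(2, ℤ) => (M : Matrix (Fin 2) (Fin 2) ℤ) 1 0) h
  have e11 := congrArg (fun M : SL(2, ℤ) => (M : Matrix (Fin 2) (Fin 2) ℤ) 1 1) h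
  simp only [Matrix.SpecialLinearGroup.coe_mul, coe_xpos, coe_xneg, coe_A,
    Matrix.mul_fin_two] at e00 e10 e11
  simp at e00 e10 e11
  have h1 : q + s + q * r * s = 21 := by linear_combination -e10
  refine core q r s p t h1 ?_ ?_
  · linear_combination -e00 - p * h1
  · linear_combination -e11 - t * h1

lemma B_ne (p q r s t : ℤ) : B ≠ xneg p * xpos q * xneg r * xpos s * xneg t := by
  intro h
  have e00 := congrArg (fun M : SL(2, ℤ) => (M : Matrix (Fin 2) (Fin 2) ℤ) 0 0) h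
  have e01 := congrArg (fun M : SL(2, ℤ) => (M : Matrix (Fin 2) (Fin 2) ℤ) 0 1) h
  have e11 := congrArg (fun M : SL(2, ℤ) => (M : Matrix (Fin 2) (Fin 2) ℤ) 1 1) h
  simp only [Matrix.SpecialLinearGroup.coe_mul, coe_xpos, coe_xneg, coe_B,
    Matrix.mul_fin_two] at e00 e01 e11
  simp at e00 e01 e11
  have h1 : q + s + q * r * s = 21 := by linear_combination -e01
  have h2 : q * r = -14 - 21 * t := by linear_combination -e00 - t * h1
  have h3 : r * s = -14 - 21 * p := by linear_combination -e11 - p * h1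
  exact core q r s p t h1 h3 h2

/-- In `SL₂(ℤ)` neither of the two five-fold products `U⁻UU⁻UU⁻` and `UU⁻UU⁻U` is contained in
the other; in particular they are different. -/
theorem result :
    ¬ ((Um ℤ : Set SL(2, ℤ)) * (U ℤ : Set SL(2, ℤ)) * (Um ℤ : Set SL(2, ℤ)) *
        (U ℤ : Set SL(2, ℤ)) * (Um ℤ : Set SL(2, ℤ)) ⊆
      (U ℤ : Set SL(2, ℤ)) * (Um ℤ : Set SL(2, ℤ)) * (U ℤ : Set SL(2, ℤ)) *
        (Um ℤ : Set SL(2, ℤ)) * (U ℤ : Set SL(2, ℤ))) ∧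
    ¬ ((U ℤ : Set SL(2, ℤ)) * (Um ℤ : Set SL(2, ℤ)) * (U ℤ : Set SL(2, ℤ)) *
        (Um ℤ : Set SL(2, ℤ)) * (U ℤ : Set SL(2, ℤ)) ⊆
      (Um ℤ : Set SL(2, ℤ)) * (U ℤ : Set SL(2, ℤ)) * (Um ℤ : Set SL(2, ℤ)) *
        (U ℤ : Set SL(2, ℤ)) * (Um ℤ : Set SL(2, ℤ))) := by
  have hp : ∀ t : ℤ, xpos t ∈ (U ℤ : Set SL(2, ℤ)) := fun t => (mem_U _).mpr ⟨t, rfl⟩
  have hm : ∀ t : ℤ, xneg t ∈ (Um ℤ : Set SL(2, ℤ)) := fun t => (mem_Um _).mpr ⟨t, rfl⟩
  constructor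
  · intro h
    have h1 := h (Set.mul_mem_mul (Set.mul_mem_mul (Set.mul_mem_mul (Set.mul_mem_mul
      (hm (-2)) (hp 2)) (hm 1)) (hp 2)) (hm (-2)))
    rw [← A_eq] at h1
    obtain ⟨x4, ⟨x3, ⟨x2, ⟨x1, hx1, y1, hy1, rfl⟩, y2, hy2, rfl⟩, y3, hy3, rfl⟩, y4, hy4, h2⟩ := h1
    obtain ⟨p, rfl⟩ := (mem_U _).mp hx1
    obtain ⟨q, rfl⟩ := (mem_Um _).mp hy1
    obtain ⟨r, rfl⟩ := (mem_U _).mp hy2
    obtain ⟨s, rfl⟩ := (mem_Um _).mp hy3
    obtain ⟨t, rfl⟩ := (mem_U _).mp hy4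
    exact A_ne p q r s t h2.symm
  · intro h
    have h1 := h (Set.mul_mem_mul (Set.mul_mem_mul (Set.mul_mem_mul (Set.mul_mem_mul
      (hp (-2)) (hm 2)) (hp 1)) (hm 2)) (hp (-2)))
    rw [← B_eq] at h1
    obtain ⟨x4, ⟨x3, ⟨x2, ⟨x1, hx1, y1, hy1, rfl⟩, y2, hy2, rfl⟩, y3, hy3, rfl⟩, y4, hy4, h2⟩ := h1
    obtain ⟨p, rfl⟩ := (mem_Um _).mp hx1
    obtain ⟨q, rfl⟩ := (mem_U _).mp hy1
    obtain ⟨r, rfl⟩ := (mem_Um _).mp hy2
    obtain ⟨s, rfl⟩ := (mem_U _).mp hy3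
    obtain ⟨t, rfl⟩ := (mem_Um _).mp hy4
    exact B_ne p q r s t h2.symm

end Pool.Agent.Results.MP_b8636a_al.LengthFive
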